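import Mathlib
import Pool.Agent.R830.Fam.Defs
import Pool.Agent.R830.Fam.Counter

/-! A `p`-stable `p`-family in a strongly `F`-regular ring without property (S). -/

open Pool.Agent.R830.Fam in
/-- For every prime `p` there are a strongly `F`-regular, `F`-finite Noetherian domain `R` of
characteristic `p` and a `p`-stable `p`-family in `R` without property (S).  The proof takes
`R = F_p[x,y]` and `b_e = ((x y (x+y))^⌈p^e/4⌉)`. -/
theorem Pool.Agent.Results.MP_30687b_ag.StableNotS.result (p : ℕ) [Fact p.Prime] :
    ∃ (R : Type) (_ : CommRing R) (_ : CharP R p), IsNoetherianRing R ∧ IsDomain R ∧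
      FFinite p R ∧ StronglyFRegular p R ∧
      ∃ b : ℕ → Ideal R, IsPFamily p b ∧ IsPStable p b ∧ ¬ PropertyS p b :=
  ⟨S p, (inferInstance : CommRing (S p)), (inferInstance : CharP (S p) p),
    (inferInstance : IsNoetherianRing (S p)), (inferInstance : IsDomain (S p)),
    ffinite_of_finiteType p (S p), stronglyFRegular_mvPolynomial p 2, bb p, pfamily p,
    pstable p, not_propertyS p⟩
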